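import Pool.Agent.H27.G.R_seed8.H306R2.RZ.Defs2
import Pool.Agent.H27.G.R_seed8.Helper919.Char

set_option autoImplicit false

/-!
# Task C3 of project RZ: the primitive character (helper241)
-/

namespace Pool.Agent.H241R2.RZC3

open Finset Filter Topology MeasureTheory
open Pool.Agent.H306R2.RZ

noncomputable section

theorem ft_one {N m : ℕ} (χ : DirichletCharacter ℂ N) (h : χ.FactorsThrough m) (a : ℕ)
    (hco : a.Coprime N) (ha : (a : ZMod m) = 1) : χ (a : ZMod N) = 1 := by
  obtain ⟨hd, χ₀, rfl⟩ := h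
  have hu : IsUnit (a : ZMod N) := (ZMod.isUnit_iff_coprime a N).2 hco
  obtain ⟨u, hu'⟩ := hu
  rw [← hu', DirichletCharacter.changeLevel_eq_cast_of_dvd, hu', ZMod.cast_natCast hd, ha, map_one]

theorem prim_of {N : ℕ} [NeZero N] (χ : DirichletCharacter ℂ N)
    (h : ∀ q : ℕ, q.Prime → ∀ m : ℕ, N = m * q → ¬ χ.FactorsThrough m) : χ.IsPrimitive := by
  by_contra hne
  obtain ⟨k, hk⟩ := χ.conductor_dvd_level
  have hk1 : k ≠ 1 := by
    rintro rfl
    apply hne
    rw [DirichletCharacter.isPrimitive_def]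
    omega
  obtain ⟨q, hq, r, hr⟩ := Nat.exists_prime_and_dvd hk1
  have hN : N = χ.conductor * r * q := by
    rw [mul_assoc, mul_comm r q, ← hr]
    exact hk
  refine h q hq (χ.conductor * r) hN ?_
  exact DirichletCharacter.FactorsThrough.mono χ χ.factorsThrough_conductor (Dvd.intro _ rfl) ⟨q, hN⟩

theorem exists_char (n : ℤ) (hn : n ≠ 0) (hsq : ¬ IsSquare n) (N : ℕ) (hN : N = 4 * n.natAbs) :
    ∃ χ : DirichletCharacter ℂ N, χ ≠ 1 ∧
      ∀ m : ℕ, χ (m : ZMod N) = ((Pool.Agent.Helper919.XX n m : ℝ) : ℂ) := by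
  subst hN
  exact ⟨Pool.Agent.Helper919.psi n hn, Pool.Agent.Helper919.psi_ne_one n hn hsq, fun m =>
    Pool.Agent.Helper919.psi_apply n hn m⟩

theorem js_odd (d m : ℕ) (hm : Odd m) : js (8 * (d : ℤ)) m = ((jacobiSym (2 * (d : ℤ)) m : ℤ) : ℝ) := by
  have h1 : jacobiSym (8 * (d : ℤ)) m = jacobiSym (2 * (d : ℤ)) m := by
    rw [show (8 * (d : ℤ)) = 2 ^ 2 * (2 * d) by ring, jacobiSym.mul_left, jacobiSym.sq_one', one_mul]
    rw [Int.gcd_comm]
    exact_mod_cast (Nat.coprime_two_right.2 hm)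
  rw [js, h1]

theorem js_even (d m : ℕ) (hm : ¬ Odd m) (h0 : m ≠ 0) : js (8 * (d : ℤ)) m = 0 := by
  have : NeZero m := ⟨h0⟩
  have h1 : jacobiSym (8 * (d : ℤ)) m = 0 := by
    rw [jacobiSym.eq_zero_iff_not_coprime]
    intro h
    have h2 : (2 : ℤ) ∣ (Int.gcd (8 * (d : ℤ)) m : ℤ) := by
      refine Int.dvd_coe_gcd ⟨4 * d, by ring⟩ ?_
      have := (Nat.not_odd_iff_even.1 hm).two_dvd
      exact_mod_cast this
    rw [h] at h2
    norm_num at h2
  rw [js, h1]
  simp

theorem C3 (d : ℕ) (hd : Odd d) (hs : Squarefree d) :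
    ∃ χ : DirichletCharacter ℂ (8 * d), χ.IsPrimitive ∧ χ ≠ 1 ∧
      ∀ n : ℕ, n ≠ 0 → χ (n : ZMod (8 * d)) = ((js (8 * (d : ℤ)) n : ℝ) : ℂ) := by
  have hd0 : 0 < d := hd.pos
  have : NeZero (8 * d) := ⟨by omega⟩
  have hsq : ¬ IsSquare (2 * (d : ℤ)) := by
    rintro ⟨r, hr⟩
    have h1 : Even (r * r) := ⟨d, by rw [← hr]; ring⟩
    have h2 : Even r := by
      rcases Int.even_mul.1 h1 with h | h <;> exact h
    obtain ⟨s, hs'⟩ := h2
    have h3 : (d : ℤ) = 2 * (s * s) := by
      rw [hs'] at hr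
      linarith
    have h4 : Odd (d : ℤ) := by exact_mod_cast hd
    rw [h3] at h4
    exact (Int.not_odd_iff_even.2 (even_two_mul _)) h4
  obtain ⟨χ, hχ1, hχ⟩ := exists_char (2 * (d : ℤ)) (by positivity) hsq (8 * d) (by
    rw [Int.natAbs_mul]; simp; ring)
  have hval : ∀ n : ℕ, n ≠ 0 → χ (n : ZMod (8 * d)) = ((js (8 * (d : ℤ)) n : ℝ) : ℂ) := by
    intro n hn
    rw [hχ, Pool.Agent.Helper919.XX_apply]
    by_cases ho : Odd n
    · rw [if_pos ho, js_odd d n ho]
    · rw [if_neg ho, js_even d n ho hn]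
  refine ⟨χ, prim_of χ fun q hq m hm hft => ?_, hχ1, hval⟩
  -- the key: a number `a = 1 mod m` with symbol `-1`
  have key : ∀ a : ℕ, a ≠ 0 → a.Coprime (8 * d) → (a : ZMod m) = 1 → js (8 * (d : ℤ)) a = -1 → False := by
    intro a ha0 hco ha hj
    have h1 := ft_one χ hft a hco ha
    rw [hval a ha0, hj] at h1
    norm_num at h1
  by_cases hq2 : q = 2
  · -- `m = 4 d`, `a = 1 + 4 d`
    subst hq2
    have hm4 : m = 4 * d := by omega
    have hodd : Odd (1 + 4 * d) := by
      rw [Nat.odd_iff]; omega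
    have hcod : (1 + 4 * d).Coprime d := by
      rw [mul_comm 4 d]
      simp
    refine key (1 + 4 * d) (by omega) ?_ ?_ ?_
    · refine Nat.Coprime.mul_right ?_ hcod
      have h2 : (1 + 4 * d).Coprime (2 ^ 3) := Nat.Coprime.pow_right 3 (Nat.coprime_two_right.2 hodd)
      exact h2
    · rw [hm4]
      push_cast
      have h3 : ((4 * d : ℕ) : ZMod (4 * d)) = 0 := ZMod.natCast_self _
      push_cast at h3
      rw [h3, add_zero]
    · rw [js_odd _ _ hodd, jacobiSym.mul_left]
      have h4 : jacobiSym 2 (1 + 4 * d) = -1 := by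
        rw [jacobiSym.at_two hodd]
        have h5 : ((1 + 4 * d : ℕ) : ZMod 8) = 5 := by
          obtain ⟨e, he⟩ := hd
          have h6 : 1 + 4 * d = 5 + 8 * e := by omega
          rw [h6]
          push_cast
          have h7 : (8 : ZMod 8) = 0 := by decide
          rw [h7, zero_mul, add_zero]
        rw [h5]
        decide
      have h8 : jacobiSym (d : ℤ) (1 + 4 * d) = 1 := by
        rw [jacobiSym.quadratic_reciprocity_one_mod_four' hd (by omega)]
        have h9 : jacobiSym ((1 + 4 * d : ℕ) : ℤ) d = jacobiSym 1 d := by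
          apply jacobiSym.mod_left'
          push_cast
          rw [show (1 : ℤ) + 4 * d = 1 + d * 4 by ring, Int.add_mul_emod_self_left]
        rw [h9, jacobiSym.one_left]
      rw [h4, h8]
      norm_num
  · -- `q = p` odd
    have hqd : q ∣ d := by
      have h1 : q ∣ 8 * d := ⟨m, by rw [hm, mul_comm]⟩
      rcases (Nat.Prime.dvd_mul hq).1 h1 with h | h
      · exfalso
        have h2 : q ∣ 2 ^ 3 := h
        exact hq2 ((Nat.prime_dvd_prime_iff_eq hq Nat.prime_two).1 (hq.dvd_of_dvd_pow h2))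
      · exact h
    obtain ⟨e, he⟩ := hqd
    have hm8 : m = 8 * e := by
      have h1 : m * q = (8 * e) * q := by rw [← hm, he]; ring
      exact Nat.eq_of_mul_eq_mul_right hq.pos h1
    have hqe : q.Coprime e := by
      rw [he] at hs
      exact (Nat.squarefree_mul_iff.1 hs).1
    have hqodd : Odd q := hq.odd_of_ne_two hq2
    have heodd : Odd e := by
      rw [he] at hd
      exact (Nat.odd_mul.1 hd).2
    have hco8 : (8 * e).Coprime q := by
      refine Nat.Coprime.mul_left ?_ hqe.symm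
      have h2 : (2 ^ 3).Coprime q := Nat.Coprime.pow_left 3 (Nat.coprime_two_left.2 hqodd)
      exact h2
    -- a non-residue
    have : Fact q.Prime := ⟨hq⟩
    obtain ⟨g, hg⟩ : ∃ g : ZMod q, ¬ IsSquare g :=
      FiniteField.exists_nonsquare (by rw [ZMod.ringChar_zmod_n]; exact hq2)
    obtain ⟨a, ha1, ha2⟩ := Nat.chineseRemainder hco8 1 g.val
    have haodd : Odd a := by
      have h3 : a ≡ 1 [MOD 2] := Nat.ModEq.of_dvd ⟨4 * e, by ring⟩ ha1
      rw [Nat.odd_iff]
      exact h3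
    have hag : ((a : ℕ) : ZMod q) = g := by
      have h3 := (ZMod.natCast_eq_natCast_iff _ _ _).2 ha2
      rw [h3, ZMod.natCast_zmod_val]
    have hg0 : g ≠ 0 := by
      rintro rfl
      exact hg (IsSquare.zero)
    have ha0 : a ≠ 0 := haodd.pos.ne'
    have hcoq : a.Coprime q := by
      rw [Nat.coprime_comm, Nat.Prime.coprime_iff_not_dvd hq]
      intro h4
      apply hg0
      rw [← hag]
      exact (ZMod.natCast_eq_zero_iff _ _).2 h4
    have hcoe : a.Coprime e := by
      have h5 : a ≡ 1 [MOD e] := Nat.ModEq.of_dvd ⟨8, by ring⟩ ha1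
      have h6 := h5.gcd_eq
      rw [Nat.gcd_one_left] at h6
      exact h6
    have hj1 : jacobiSym (a : ℤ) q = -1 := by
      rw [← jacobiSym.legendreSym.to_jacobiSym, legendreSym.eq_neg_one_iff]
      have h7 : ((a : ℤ) : ZMod q) = g := by
        rw [Int.cast_natCast, hag]
      rw [h7]
      exact hg
    have hj2 : jacobiSym (a : ℤ) e = 1 := by
      have h5 : a ≡ 1 [MOD e] := Nat.ModEq.of_dvd ⟨8, by ring⟩ ha1
      have h9 : jacobiSym (a : ℤ) e = jacobiSym 1 e := by
        apply jacobiSym.mod_left'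
        exact_mod_cast h5
      rw [h9, jacobiSym.one_left]
    have ha8 : ((a : ℕ) : ZMod 8) = 1 := by
      have h5 : a ≡ 1 [MOD 8] := Nat.ModEq.of_dvd ⟨e, rfl⟩ ha1
      have h6 := (ZMod.natCast_eq_natCast_iff _ _ _).2 h5
      rw [h6]
      simp
    refine key a ha0 ?_ ?_ ?_
    · refine Nat.Coprime.mul_right ?_ ?_
      · have h2 : a.Coprime (2 ^ 3) := Nat.Coprime.pow_right 3 (Nat.coprime_two_right.2 haodd)
        exact h2
      · rw [he]
        exact Nat.Coprime.mul_right hcoq hcoe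
    · rw [hm8]
      have h6 := (ZMod.natCast_eq_natCast_iff _ _ _).2 ha1
      rw [h6]
      simp
    · rw [js_odd _ _ haodd, jacobiSym.mul_left]
      have h10 : jacobiSym 2 a = 1 := by
        rw [jacobiSym.at_two haodd, ha8]
        decide
      have h11 : jacobiSym (d : ℤ) a = -1 := by
        have ha4 : a % 4 = 1 := by
          have h5 : a ≡ 1 [MOD 4] := Nat.ModEq.of_dvd ⟨2 * e, by ring⟩ ha1
          exact h5
        rw [jacobiSym.quadratic_reciprocity_one_mod_four' hd ha4]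
        have : NeZero q := ⟨hq.ne_zero⟩
        have : NeZero e := ⟨heodd.pos.ne'⟩
        rw [he, jacobiSym.mul_right, hj1, hj2]
        norm_num
      rw [h10, h11]
      norm_num

end

end Pool.Agent.H241R2.RZC3
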